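import Pool.Agent.Helper10.RS.Goals
import Pool.Agent.Helper56.PNT

open Finset Filter Topology

namespace Pool.Agent.Helper74.RS

open Pool.Agent.Helper10.RS

theorem theta_near (ε : ℝ) (hε : 0 < ε) : ∀ᶠ x : ℝ in atTop,
    (1 - ε) * x ≤ Chebyshev.theta x ∧ Chebyshev.theta x ≤ (1 + ε) * x := by
  have h1 := (Metric.tendsto_nhds.mp Helper56.theta_div_tendsto) ε hε
  filter_upwards [h1, eventually_gt_atTop 0] with x hx h0
  rw [Real.dist_eq, abs_lt] at hx
  constructor
  · have : (1 - ε) ≤ Chebyshev.theta x / x := by linarith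
    rwa [le_div_iff₀ h0] at this
  · have : Chebyshev.theta x / x ≤ 1 + ε := by linarith
    rwa [div_le_iff₀ h0] at this

theorem p_pct : PCT := by
  have h1 := theta_near (1 / 10) (by norm_num)
  have h2 : ∀ᶠ x : ℝ in atTop, Real.log x < x ^ ((1 : ℝ) / 3) / 4 := by
    have h3 := (isLittleO_log_rpow_atTop (show (0 : ℝ) < 1 / 3 by norm_num)).bound
      (show (0 : ℝ) < 1 / 8 by norm_num)
    filter_upwards [h3, eventually_gt_atTop 1] with x hx h1
    rw [Real.norm_eq_abs, Real.norm_eq_abs] at hx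
    have h4 : 0 < x ^ ((1 : ℝ) / 3) := Real.rpow_pos_of_pos (by linarith) _
    rw [abs_of_pos h4] at hx
    have := le_abs_self (Real.log x)
    linarith
  obtain ⟨a, ha⟩ := eventually_atTop.mp h1
  obtain ⟨b, hb⟩ := eventually_atTop.mp h2
  refine ⟨⌈max (2 * a) (max b 2)⌉₊, fun n hn => ?_⟩
  have hn' : max (2 * a) (max b 2) ≤ (n : ℝ) := (Nat.le_ceil _).trans (by exact_mod_cast hn)
  have hn1 : 2 * a ≤ (n : ℝ) := (le_max_left _ _).trans hn'
  have hn2 : b ≤ (n : ℝ) := (le_max_left _ _).trans ((le_max_right _ _).trans hn')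
  have hn3 : (2 : ℝ) ≤ (n : ℝ) := (le_max_right _ _).trans ((le_max_right _ _).trans hn')
  have hlog := hb n hn2
  have hA : a ≤ (n : ℝ) := by
    by_cases h : 0 ≤ a
    · linarith
    · rw [not_le] at h
      linarith
  have h5 := (ha n hA).1
  have h6 := (ha ((n : ℝ) / 2) (by linarith)).2
  set T : Finset ℕ := (Finset.Ioc 0 n).filter (fun r => r.Prime ∧ n < 2 * r) with hT
  have hset : {r : ℕ | r.Prime ∧ n < 2 * r ∧ r ≤ n} = (T : Set ℕ) := by
    ext r
    simp only [Set.mem_ofPred_eq, hT, Finset.coe_filter, Finset.mem_Ioc]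
    constructor
    · rintro ⟨h1, h2, h3⟩
      exact ⟨⟨h1.pos, h3⟩, h1, h2⟩
    · rintro ⟨⟨_, h3⟩, h1, h2⟩
      exact ⟨h1, h2, h3⟩
  rw [hset, Set.ncard_coe_finset]
  have h7 : Chebyshev.theta n ≤ Chebyshev.theta ((n : ℝ) / 2) + T.card * Real.log n := by
    unfold Chebyshev.theta
    rw [Nat.floor_natCast]
    have hfl : ⌊(n : ℝ) / 2⌋₊ = n / 2 := by
      have := Nat.floor_div_natCast (K := ℝ) (n : ℝ) 2
      simpa using this
    rw [hfl]
    have hsub : (Finset.Ioc 0 n).filter Nat.Prime ⊆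
        (Finset.Ioc 0 (n / 2)).filter Nat.Prime ∪ T := by
      intro p hp
      rw [Finset.mem_filter, Finset.mem_Ioc] at hp
      rw [Finset.mem_union, Finset.mem_filter, Finset.mem_Ioc, hT, Finset.mem_filter,
        Finset.mem_Ioc]
      by_cases h : p ≤ n / 2
      · exact Or.inl ⟨⟨hp.1.1, h⟩, hp.2⟩
      · exact Or.inr ⟨hp.1, hp.2, by omega⟩
    have hnn : ∀ p ∈ (Finset.Ioc 0 (n / 2)).filter Nat.Prime ∪ T,
        p ∉ (Finset.Ioc 0 n).filter Nat.Prime → 0 ≤ Real.log (p : ℝ) :=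
      fun p _ _ => Real.log_natCast_nonneg p
    refine (Finset.sum_le_sum_of_subset_of_nonneg hsub hnn).trans ?_
    have hdis : Disjoint ((Finset.Ioc 0 (n / 2)).filter Nat.Prime) T := by
      rw [Finset.disjoint_left]
      intro p hp hp2
      rw [Finset.mem_filter, Finset.mem_Ioc] at hp
      rw [hT, Finset.mem_filter, Finset.mem_Ioc] at hp2
      omega
    rw [Finset.sum_union hdis]
    have h8 : ∑ p ∈ T, Real.log (p : ℝ) ≤ T.card • Real.log n := by
      apply Finset.sum_le_card_nsmul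
      intro p hp
      rw [hT, Finset.mem_filter, Finset.mem_Ioc] at hp
      apply Real.log_le_log
      · exact_mod_cast hp.1.1
      · exact_mod_cast hp.1.2
    rw [nsmul_eq_mul] at h8
    linarith
  by_contra hcon
  rw [not_lt] at hcon
  have h9 : 0 ≤ Real.log (n : ℝ) := Real.log_natCast_nonneg n
  have h10 : (T.card : ℝ) * Real.log n ≤ (n : ℝ) ^ ((2 : ℝ) / 3) * ((n : ℝ) ^ ((1 : ℝ) / 3) / 4) :=
    mul_le_mul hcon hlog.le h9 (Real.rpow_nonneg (by linarith) _)
  have h11 : (n : ℝ) ^ ((2 : ℝ) / 3) * ((n : ℝ) ^ ((1 : ℝ) / 3) / 4) = n / 4 := by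
    rw [← mul_div_assoc, ← Real.rpow_add (by linarith)]
    norm_num
  rw [h11] at h10
  linarith

end Pool.Agent.Helper74.RS
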